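import Pool.Agent.J4H69.K1.Stm

set_option autoImplicit false

/-!
# Project K1 (helper69), job MIS (helper63)
-/

namespace Pool.Agent.J4H63.K1

open Filter Topology Set Metric
open Pool.Agent.J4H69.K1

variable {u : Ultrafilter ℕ} {x : ℕ → ℂ}

/-- `‖f‖ ≤ ‖x‖ ^ c` along `u` -/
def Le (u : Ultrafilter ℕ) (x f : ℕ → ℂ) (c : ℝ) : Prop := ∀ᶠ j in (u : Filter ℕ), ‖f j‖ ≤ ‖x j‖ ^ c

theorem Le.mono (hx : Tendsto (fun j => ‖x j‖) u atTop) {f : ℕ → ℂ} {c c' : ℝ} (h : Le u x f c) (hc : c ≤ c') :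
    Le u x f c' := by
  filter_upwards [h, hx.eventually_ge_atTop 1] with j h1 h2
  exact h1.trans (Real.rpow_le_rpow_of_exponent_le h2 hc)

theorem Le.mul (hx : Tendsto (fun j => ‖x j‖) u atTop) {f g : ℕ → ℂ} {c d : ℝ} (hf : Le u x f c)
    (hg : Le u x g d) : Le u x (fun j => f j * g j) (c + d) := by
  filter_upwards [hf, hg, hx.eventually_ge_atTop 1] with j h1 h2 h3
  rw [norm_mul, Real.rpow_add (by linarith)]
  gcongr

theorem Le.add (hx : Tendsto (fun j => ‖x j‖) u atTop) {f g : ℕ → ℂ} {c : ℝ} (hf : Le u x f c)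
    (hg : Le u x g c) : Le u x (fun j => f j + g j) (c + 1) := by
  filter_upwards [hf, hg, hx.eventually_ge_atTop 2] with j h1 h2 h3
  rw [Real.rpow_add (by linarith), Real.rpow_one]
  calc ‖f j + g j‖ ≤ ‖x j‖ ^ c + ‖x j‖ ^ c := (norm_add_le _ _).trans (add_le_add h1 h2)
    _ = ‖x j‖ ^ c * 2 := by ring
    _ ≤ _ := by gcongr

theorem Le.neg {f : ℕ → ℂ} {c : ℝ} (hf : Le u x f c) : Le u x (fun j => - f j) c := by
  filter_upwards [hf] with j h1
  rwa [norm_neg]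

theorem Le.congr {f g : ℕ → ℂ} {c : ℝ} (hf : Le u x f c) (h : ∀ᶠ j in (u : Filter ℕ), f j = g j) : Le u x g c := by
  filter_upwards [hf, h] with j h1 h2
  rwa [← h2]

/-- a constant times `‖x‖ ^ c` -/
theorem Le.of_const (hx : Tendsto (fun j => ‖x j‖) u atTop) {f : ℕ → ℂ} {c K : ℝ}
    (hf : ∀ᶠ j in (u : Filter ℕ), ‖f j‖ ≤ K * ‖x j‖ ^ c) : Le u x f (c + 1) := by
  filter_upwards [hf, hx.eventually_ge_atTop 1, hx.eventually_ge_atTop K] with j h1 h2 h3
  rw [Real.rpow_add (by linarith), Real.rpow_one]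
  calc ‖f j‖ ≤ K * ‖x j‖ ^ c := h1
    _ ≤ ‖x j‖ * ‖x j‖ ^ c := by gcongr
    _ = _ := by ring

/-- polynomially bounded -/
def Pb (u : Ultrafilter ℕ) (x f : ℕ → ℂ) : Prop := ∃ c : ℝ, Le u x f c

/-- smaller than all powers -/
def Sm (u : Ultrafilter ℕ) (x f : ℕ → ℂ) : Prop := ∀ M : ℝ, Le u x f (-M)

theorem Pb.mul (hx : Tendsto (fun j => ‖x j‖) u atTop) {f g : ℕ → ℂ} (hf : Pb u x f) (hg : Pb u x g) :
    Pb u x (fun j => f j * g j) := by
  obtain ⟨c, hc⟩ := hf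
  obtain ⟨d, hd⟩ := hg
  exact ⟨_, hc.mul hx hd⟩

theorem Pb.add (hx : Tendsto (fun j => ‖x j‖) u atTop) {f g : ℕ → ℂ} (hf : Pb u x f) (hg : Pb u x g) :
    Pb u x (fun j => f j + g j) := by
  obtain ⟨c, hc⟩ := hf
  obtain ⟨d, hd⟩ := hg
  exact ⟨_, (hc.mono hx (le_max_left c d)).add hx (hd.mono hx (le_max_right c d))⟩

theorem Pb.neg {f : ℕ → ℂ} (hf : Pb u x f) : Pb u x (fun j => - f j) := by
  obtain ⟨c, hc⟩ := hf
  exact ⟨_, hc.neg⟩

theorem Sm.mul (hx : Tendsto (fun j => ‖x j‖) u atTop) {f g : ℕ → ℂ} (hf : Pb u x f) (hg : Sm u x g) :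
    Sm u x (fun j => f j * g j) := by
  obtain ⟨c, hc⟩ := hf
  intro M
  have := hc.mul hx (hg (M + c))
  exact this.mono hx (by linarith)

theorem Sm.add (hx : Tendsto (fun j => ‖x j‖) u atTop) {f g : ℕ → ℂ} (hf : Sm u x f) (hg : Sm u x g) :
    Sm u x (fun j => f j + g j) := by
  intro M
  have := (hf (M + 1)).add hx (hg (M + 1))
  exact this.mono hx (by linarith)

theorem Sm.neg {f : ℕ → ℂ} (hf : Sm u x f) : Sm u x (fun j => - f j) := fun M => (hf M).neg

theorem Sm.congr {f g : ℕ → ℂ} (hf : Sm u x f) (h : ∀ᶠ j in (u : Filter ℕ), f j = g j) : Sm u x g :=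
  fun M => (hf M).congr h

theorem Sm.pb {f : ℕ → ℂ} (hf : Sm u x f) : Pb u x f := ⟨_, hf 0⟩

/-! ## algebraic sequences -/

theorem Alg.pb (hPC : S_PC) (hx : Tendsto (fun j => ‖x j‖) u atTop) {a : ℕ → ℂ} (ha : Alg u x a) : Pb u x a := by
  rcases hPC u x a hx ha with h | ⟨v, C, hC, h⟩
  · refine ⟨0, ?_⟩
    filter_upwards [h, hx.eventually_ge_atTop 1] with j h1 h2
    rw [h1, norm_zero]
    positivity
  · refine ⟨v + 1, Le.of_const hx (K := C) ?_⟩
    filter_upwards [h] with j hj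
    exact hj.2

theorem alg_pow (hCL : S_CL) (hx : Tendsto (fun j => ‖x j‖) u atTop) {a : ℕ → ℂ} (ha : Alg u x a) (n : ℕ) :
    Alg u x (fun j => a j ^ n) := by
  obtain ⟨h1, h2, h3, h4, h5, h6⟩ := hCL u x hx
  induction n with
  | zero => simpa using h1 1
  | succ n ih => simpa [pow_succ] using h4 _ _ ih ha

theorem alg_sum (hCL : S_CL) (hx : Tendsto (fun j => ‖x j‖) u atTop) {a : ℕ → ℕ → ℂ} (n : ℕ)
    (ha : ∀ i < n, Alg u x (a i)) : Alg u x (fun j => ∑ i ∈ Finset.range n, a i j) := by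
  obtain ⟨h1, h2, h3, h4, h5, h6⟩ := hCL u x hx
  induction n with
  | zero => simpa using h1 0
  | succ n ih =>
    have := h3 _ _ (ih fun i hi => ha i (by omega)) (ha n (by omega))
    simpa [Finset.sum_range_succ] using this

theorem alg_neg (hCL : S_CL) (hx : Tendsto (fun j => ‖x j‖) u atTop) {a : ℕ → ℂ} (ha : Alg u x a) :
    Alg u x (fun j => - a j) := by
  obtain ⟨h1, h2, h3, h4, h5, h6⟩ := hCL u x hx
  simpa using h4 _ _ (h1 (-1)) ha

theorem alg_eval (hCL : S_CL) (hx : Tendsto (fun j => ‖x j‖) u atTop) (y : Fin 4 → ℕ → ℂ)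
    (hy : ∀ i, Alg u x (y i)) (P : MvPolynomial (Fin 4) ℂ) :
    Alg u x (fun j => MvPolynomial.eval (fun i => y i j) P) := by
  obtain ⟨h1, h2, h3, h4, h5, h6⟩ := hCL u x hx
  induction P using MvPolynomial.induction_on with
  | C a => simpa using h1 a
  | add p q hp hq => simpa using h3 _ _ hp hq
  | mul_X p i hp => simpa using h4 _ _ hp (hy i)

/-- the conclusion from dominance -/
theorem main (hPC : S_PC) (hDOM : S_DOM) (hx : Tendsto (fun j => ‖x j‖) u atTop) {L : ℕ → ℂ}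
    (hL : Tendsto (fun j => ‖L j‖) u atTop)
    (hL' : ∀ ε : ℝ, 0 < ε → ∀ᶠ j in (u : Filter ℕ), ‖L j‖ ≤ ‖x j‖ ^ ε) (d : ℕ) (b : ℕ → ℂ) (hb : Alg u x b)
    (f : ℕ → ℂ) (hf : Sm u x f)
    (hap : ∀ M : ℝ, ∃ B : ℕ → ℕ → ℂ, (∀ i ≤ d, Alg u x (B i)) ∧ B d = b ∧
      Le u x (fun j => f j - ∑ i ∈ Finset.range (d + 1), B i j * L j ^ i) (-M)) :
    ∀ᶠ j in (u : Filter ℕ), b j = 0 := by
  by_contra hb0
  rcases hPC u x b hx hb with h | ⟨v, C, hC, h⟩
  · exact hb0 h
  obtain ⟨B, hB, hBd, hE⟩ := hap (-v + 2)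
  obtain ⟨c, hc, hdom⟩ := hDOM u x L hx hL hL' d B hB (by rw [hBd]; exact hb0)
  have hfin : ∀ᶠ j in (u : Filter ℕ), False := by
    filter_upwards [h, hE, hdom, hf (-v + 2), hx.eventually_ge_atTop 1, hx.eventually_gt_atTop (2 * C / c)]
      with j h1 h2 h3 h4 h5 h6
    rw [hBd] at h3
    set S := ∑ i ∈ Finset.range (d + 1), B i j * L j ^ i with hS
    have h7 : ‖S‖ ≤ 2 * ‖x j‖ ^ (-(-(v : ℝ) + 2)) := by
      calc ‖S‖ = ‖f j - (f j - S)‖ := by rw [sub_sub_cancel]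
        _ ≤ ‖f j‖ + ‖f j - S‖ := norm_sub_le _ _
        _ ≤ _ := by linarith
    have h8 : ‖x j‖ ^ (-(-(v : ℝ) + 2)) = ‖x j‖ ^ (v : ℝ) * (‖x j‖ ^ 2)⁻¹ := by
      rw [show -(-(v : ℝ) + 2) = v + (-(2 : ℕ) : ℝ) by push_cast; ring, Real.rpow_add (by linarith),
        Real.rpow_neg (by linarith), Real.rpow_natCast]
    have hp : 0 < ‖x j‖ ^ (v : ℝ) := by positivity
    have h9 : c * (C⁻¹ * ‖x j‖ ^ (v : ℝ)) ≤ 2 * (‖x j‖ ^ (v : ℝ) * (‖x j‖ ^ 2)⁻¹) := by
      rw [← h8]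
      calc c * (C⁻¹ * ‖x j‖ ^ (v : ℝ)) ≤ c * ‖b j‖ := by gcongr; exact h1.1
        _ ≤ ‖S‖ := h3
        _ ≤ _ := h7
    have h10 : c * C⁻¹ ≤ 2 * (‖x j‖ ^ 2)⁻¹ := by
      have : (c * C⁻¹) * ‖x j‖ ^ (v : ℝ) ≤ (2 * (‖x j‖ ^ 2)⁻¹) * ‖x j‖ ^ (v : ℝ) := by nlinarith
      exact le_of_mul_le_mul_right this hp
    have h11 : c * C⁻¹ * ‖x j‖ ^ 2 ≤ 2 := by
      have hx2 : 0 < ‖x j‖ ^ 2 := by positivity
      calc c * C⁻¹ * ‖x j‖ ^ 2 ≤ 2 * (‖x j‖ ^ 2)⁻¹ * ‖x j‖ ^ 2 := by gcongr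
        _ = 2 := by field_simp
    have h12 : ‖x j‖ ≤ ‖x j‖ ^ 2 := by nlinarith
    have h13 : c * ‖x j‖ > 2 * C := by
      rw [div_lt_iff₀ hc] at h6
      linarith
    have h14 : c * ‖x j‖ ^ 2 ≤ 2 * C := by
      have : c * C⁻¹ * ‖x j‖ ^ 2 * C ≤ 2 * C := by gcongr
      calc c * ‖x j‖ ^ 2 = c * C⁻¹ * ‖x j‖ ^ 2 * C := by field_simp
        _ ≤ _ := this
    nlinarith
  exact (u.neBot.ne) (by simpa using hfin)


/-! ## the Gamma function -/

theorem gamma_ne {z : ℂ} (h0 : z ≠ 0) (h : |Complex.arg z| ≤ 3 * Real.pi / 4) : ∀ m : ℕ, z ≠ -m := by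
  intro m hm
  have hpi := Real.pi_pos
  rcases Nat.eq_zero_or_pos m with h1 | h1
  · apply h0
    simpa [h1] using hm
  · have h2 : z = ((-(m : ℝ) : ℝ) : ℂ) := by rw [hm]; push_cast; rfl
    have h3 : Complex.arg z = Real.pi := by
      rw [h2]
      exact Complex.arg_ofReal_of_neg (by simpa using h1)
    rw [h3, abs_of_pos hpi] at h
    linarith

theorem deriv_rg {z : ℂ} (h : ∀ m : ℕ, z ≠ -m) :
    deriv rg z = - (rg z * logDeriv Complex.Gamma z) ∧ rg z ≠ 0 := by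
  have h1 := Complex.Gamma_ne_zero h
  have h2 := Complex.differentiableAt_Gamma z h
  constructor
  · have h3 : HasDerivAt rg (-(deriv Complex.Gamma z) / Complex.Gamma z ^ 2) z := h2.hasDerivAt.inv h1
    rw [h3.deriv, logDeriv_apply]
    unfold rg
    field_simp
  · exact inv_ne_zero h1

/-! ## logarithms -/

theorem norm_log_le (z : ℂ) : ‖Complex.log z‖ ≤ |Real.log ‖z‖| + Real.pi := by
  calc ‖Complex.log z‖ ≤ |(Complex.log z).re| + |(Complex.log z).im| := Complex.norm_le_abs_re_add_abs_im _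
    _ ≤ _ := by
      rw [Complex.log_re, Complex.log_im]
      gcongr
      exact Complex.abs_arg_le_pi z

theorem log_tendsto {z : ℕ → ℂ} (hz : Tendsto (fun j => ‖z j‖) u atTop) :
    Tendsto (fun j => ‖Complex.log (z j)‖) u atTop := by
  have h1 : Tendsto (fun j => Real.log ‖z j‖) u atTop := Real.tendsto_log_atTop.comp hz
  refine tendsto_atTop_mono (fun j => ?_) h1
  calc Real.log ‖z j‖ = (Complex.log (z j)).re := (Complex.log_re _).symm
    _ ≤ |(Complex.log (z j)).re| := le_abs_self _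
    _ ≤ _ := Complex.abs_re_le_norm _

theorem log_small (hx : Tendsto (fun j => ‖x j‖) u atTop) {z : ℕ → ℂ} (hz : Tendsto (fun j => ‖z j‖) u atTop)
    {c : ℝ} (hc : Le u x z c) : ∀ ε : ℝ, 0 < ε → ∀ᶠ j in (u : Filter ℕ), ‖Complex.log (z j)‖ ≤ ‖x j‖ ^ ε := by
  intro ε hε
  have h1 : Tendsto (fun j => Real.log ‖x j‖) u atTop := Real.tendsto_log_atTop.comp hx
  have h2 : Tendsto (fun j => ‖x j‖ ^ (ε / 2)) u atTop := (tendsto_rpow_atTop (by positivity)).comp hx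
  filter_upwards [hc, hx.eventually_ge_atTop 1, hz.eventually_ge_atTop 1,
    h2.eventually_ge_atTop (|c| * (2 / ε) + Real.pi)] with j h3 h4 h5 h6
  have h7 : 0 ≤ Real.log ‖z j‖ := Real.log_nonneg h5
  have h8 : 0 ≤ Real.log ‖x j‖ := Real.log_nonneg h4
  have h9 : Real.log ‖z j‖ ≤ c * Real.log ‖x j‖ := by
    have := Real.log_le_log (by linarith) h3
    rwa [Real.log_rpow (by linarith)] at this
  have h10 : Real.log ‖x j‖ ≤ ‖x j‖ ^ (ε / 2) / (ε / 2) := Real.log_le_rpow_div (by linarith) (by positivity)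
  have h11 : 1 ≤ ‖x j‖ ^ (ε / 2) := Real.one_le_rpow h4 (by positivity)
  have hpi := Real.pi_pos
  calc ‖Complex.log (z j)‖ ≤ |Real.log ‖z j‖| + Real.pi := norm_log_le _
    _ = Real.log ‖z j‖ + Real.pi := by rw [abs_of_nonneg h7]
    _ ≤ |c| * Real.log ‖x j‖ + Real.pi := by
      have : c * Real.log ‖x j‖ ≤ |c| * Real.log ‖x j‖ := by gcongr; exact le_abs_self c
      linarith
    _ ≤ |c| * (‖x j‖ ^ (ε / 2) / (ε / 2)) + Real.pi * ‖x j‖ ^ (ε / 2) := by
      gcongr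
      nlinarith
    _ = (|c| * (2 / ε) + Real.pi) * ‖x j‖ ^ (ε / 2) := by field_simp
    _ ≤ ‖x j‖ ^ (ε / 2) * ‖x j‖ ^ (ε / 2) := by gcongr
    _ = ‖x j‖ ^ ε := by
      rw [← Real.rpow_add (by linarith)]
      congr 1
      ring

/-- the expansion of digamma along an algebraic sequence in the large sector -/
theorem psiL (hPSI : S_PSI) (hCL : S_CL) (hx : Tendsto (fun j => ‖x j‖) u atTop) {z : ℕ → ℂ}
    (hz : Tendsto (fun j => ‖z j‖) u atTop) (hzA : Alg u x z)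
    {v : ℝ} (hv : 0 < v) (hzx : ∀ᶠ j in (u : Filter ℕ), ‖x j‖ ^ v ≤ ‖z j‖)
    (harg : ∀ᶠ j in (u : Filter ℕ), |Complex.arg (z j)| ≤ 3 * Real.pi / 4) (M : ℝ) :
    ∃ a : ℕ → ℂ, Alg u x a ∧
      Le u x (fun j => logDeriv Complex.Gamma (z j) - (Complex.log (z j) + a j)) (-M) := by
  obtain ⟨h1, h2, h3, h4, h5, h6⟩ := hCL u x hx
  obtain ⟨d, C, R, hR, h⟩ := hPSI ⌈(M + 1) / v⌉₊
  set N := ⌈(M + 1) / v⌉₊ with hN
  have hNv : M + 1 ≤ v * (N + 1) := by
    have : (M + 1) / v ≤ N := Nat.le_ceil _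
    rw [div_le_iff₀ hv] at this
    nlinarith
  refine ⟨fun j => ∑ i ∈ Finset.range N, d i / z j ^ (i + 1), ?_, ?_⟩
  · refine alg_sum (a := fun i j => d i / z j ^ (i + 1)) hCL hx N fun i _ => ?_
    have := h4 _ _ (h1 (d i)) (h5 _ (alg_pow hCL hx hzA (i + 1)))
    simpa [div_eq_mul_inv] using this
  · have hM : -M = -(M + 1) + 1 := by ring
    rw [hM]
    refine Le.of_const hx (K := |C|) ?_
    filter_upwards [hzx, harg, hz.eventually_ge_atTop R, hx.eventually_ge_atTop 1] with j h7 h8 h9 h10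
    have hxp : 0 < ‖x j‖ ^ v := by positivity
    calc _ ≤ C / ‖z j‖ ^ (N + 1) := h (z j) h9 h8
      _ ≤ |C| / ‖z j‖ ^ (N + 1) := by gcongr; exact le_abs_self C
      _ ≤ |C| / (‖x j‖ ^ v) ^ (N + 1) := by gcongr
      _ = |C| * ‖x j‖ ^ (-(v * (N + 1))) := by
        rw [Real.rpow_neg (by linarith), Real.rpow_mul (by linarith), div_eq_mul_inv]
        congr 2
        rw [← Real.rpow_natCast]
        push_cast
        rfl
      _ ≤ |C| * ‖x j‖ ^ (-(M + 1)) := by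
        gcongr

/-- the derivative is huge in the left cone -/
theorem leftS (hLEFT : S_LEFT) (hx : Tendsto (fun j => ‖x j‖) u atTop) {z : ℕ → ℂ}
    (hz : Tendsto (fun j => ‖z j‖) u atTop)
    {v : ℝ} (hv : 0 < v) (hzx : ∀ᶠ j in (u : Filter ℕ), ‖x j‖ ^ v ≤ ‖z j‖)
    (harg : ∀ᶠ j in (u : Filter ℕ), 3 * Real.pi / 4 < |Complex.arg (z j)|)
    (hrg : Pb u x (fun j => rg (z j))) :
    (∀ᶠ j in (u : Filter ℕ), deriv rg (z j) ≠ 0) ∧ Sm u x (fun j => (deriv rg (z j))⁻¹) := by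
  obtain ⟨c, hc⟩ := hrg
  have key : ∀ M : ℝ, ∀ᶠ j in (u : Filter ℕ), ‖x j‖ ^ M ≤ ‖deriv rg (z j)‖ := by
    intro M
    obtain ⟨R, hR⟩ := hLEFT ⌈|c| / v⌉₊ ⌈|M| / v⌉₊
    filter_upwards [hzx, harg, hz.eventually_ge_atTop R, hx.eventually_ge_atTop 1, hc] with j h1 h2 h3 h4 h5
    have h6 : 0 < ‖x j‖ ^ v := by positivity
    have h7 : ∀ t : ℝ, ‖x j‖ ^ |t| ≤ ‖z j‖ ^ ⌈|t| / v⌉₊ := by
      intro t
      calc ‖x j‖ ^ |t| ≤ ‖x j‖ ^ (v * (⌈|t| / v⌉₊ : ℝ)) := by
            apply Real.rpow_le_rpow_of_exponent_le h4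
            have : |t| / v ≤ ⌈|t| / v⌉₊ := Nat.le_ceil _
            rw [div_le_iff₀ hv] at this
            linarith
        _ = (‖x j‖ ^ v) ^ ⌈|t| / v⌉₊ := by rw [Real.rpow_mul (by linarith), Real.rpow_natCast]
        _ ≤ _ := by gcongr
    have h8 := hR (z j) h3 h2 ?_
    · calc ‖x j‖ ^ M ≤ ‖x j‖ ^ |M| := Real.rpow_le_rpow_of_exponent_le h4 (le_abs_self M)
        _ ≤ _ := (h7 M).trans h8
    · calc ‖rg (z j)‖ ≤ ‖x j‖ ^ c := h5
        _ ≤ ‖x j‖ ^ |c| := Real.rpow_le_rpow_of_exponent_le h4 (le_abs_self c)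
        _ ≤ _ := h7 c
  constructor
  · filter_upwards [key 0, hx.eventually_ge_atTop 1] with j h1 h2 h3
    rw [h3, norm_zero, Real.rpow_zero] at h1
    linarith
  · intro M
    filter_upwards [key M, hx.eventually_ge_atTop 1] with j h1 h2
    rw [norm_inv, Real.rpow_neg (by linarith)]
    have : 0 < ‖x j‖ ^ M := by positivity
    gcongr

/-- `log w` through `log x` for an algebraic sequence `w` -/
theorem logrel (hCL : S_CL) (hPC : S_PC) (hx : Tendsto (fun j => ‖x j‖) u atTop) {w : ℕ → ℂ}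
    (hw : Tendsto (fun j => ‖w j‖) u atTop) (hwA : Alg u x w) {v : ℚ} (hv : 0 < v) {C : ℝ} (hC : 0 < C)
    (hb : ∀ᶠ j in (u : Filter ℕ), C⁻¹ * ‖x j‖ ^ (v : ℝ) ≤ ‖w j‖ ∧ ‖w j‖ ≤ C * ‖x j‖ ^ (v : ℝ)) (M : ℝ) :
    ∃ b : ℕ → ℂ, Alg u x b ∧ Le u x (fun j => Complex.log (w j) - ((v : ℂ) * Complex.log (x j) + b j)) (-M) := by
  obtain ⟨h1, h2, h3, h4, h5, h6⟩ := hCL u x hx
  obtain ⟨p, hp⟩ : ∃ p : ℕ, (p : ℤ) = v.num := ⟨v.num.toNat, Int.toNat_of_nonneg (Rat.num_nonneg.mpr hv.le)⟩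
  set q := v.den with hq
  have hq0 : 0 < q := v.den_pos
  have hvq : (v : ℝ) * q = p := by
    have h7 : (v : ℚ) * q = v.num := Rat.mul_den_eq_num v
    rw [← hp] at h7
    exact_mod_cast h7
  have hvqc : (v : ℂ) * q = p := by exact_mod_cast hvq
  set D : ℕ → ℂ := fun j => (q : ℂ) * Complex.log (w j) - (p : ℂ) * Complex.log (x j) with hD
  have hpi := Real.pi_pos
  -- bounded
  have hDb : ∀ᶠ j in (u : Filter ℕ), ‖D j‖ ≤ q * |Real.log C| + (q + p) * Real.pi := by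
    filter_upwards [hb, hx.eventually_ge_atTop 1, hw.eventually_ge_atTop 1] with j h7 h8 h9
    have hxp : 0 < ‖x j‖ ^ (v : ℝ) := by positivity
    have e1 : Real.log ‖w j‖ ≤ Real.log C + v * Real.log ‖x j‖ := by
      have := Real.log_le_log (by linarith) h7.2
      rwa [Real.log_mul hC.ne' hxp.ne', Real.log_rpow (by linarith)] at this
    have e2 : -Real.log C + v * Real.log ‖x j‖ ≤ Real.log ‖w j‖ := by
      have := Real.log_le_log (by positivity) h7.1
      rwa [Real.log_mul (by positivity) hxp.ne', Real.log_rpow (by linarith), Real.log_inv] at this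
    have hre : (D j).re = q * (Real.log ‖w j‖ - v * Real.log ‖x j‖) := by
      have : (D j).re = q * Real.log ‖w j‖ - p * Real.log ‖x j‖ := by
        simp [hD, Complex.log_re]
      rw [this, ← hvq]
      ring
    have him : (D j).im = q * Complex.arg (w j) - p * Complex.arg (x j) := by
      simp [hD, Complex.log_im]
    have hre' : |(D j).re| ≤ q * |Real.log C| := by
      rw [hre, abs_mul, Nat.abs_cast]
      apply mul_le_mul_of_nonneg_left _ (Nat.cast_nonneg q)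
      rw [abs_le]
      have := neg_abs_le (Real.log C)
      have := le_abs_self (Real.log C)
      constructor <;> linarith
    have him' : |(D j).im| ≤ (q + p) * Real.pi := by
      rw [him]
      have a1 := Complex.abs_arg_le_pi (w j)
      have a2 := Complex.abs_arg_le_pi (x j)
      calc |(q : ℝ) * Complex.arg (w j) - p * Complex.arg (x j)| ≤ |(q : ℝ) * Complex.arg (w j)| + |(p : ℝ) * Complex.arg (x j)| :=
            abs_sub _ _
        _ = q * |Complex.arg (w j)| + p * |Complex.arg (x j)| := by rw [abs_mul, abs_mul, Nat.abs_cast, Nat.abs_cast]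
        _ ≤ q * Real.pi + p * Real.pi := by gcongr
        _ = _ := by ring
    calc ‖D j‖ ≤ |(D j).re| + |(D j).im| := Complex.norm_le_abs_re_add_abs_im _
      _ ≤ _ := add_le_add hre' him'
  obtain ⟨D₀, -, hD₀⟩ := (isCompact_closedBall (0 : ℂ) (q * |Real.log C| + (q + p) * Real.pi)).ultrafilter_le_nhds
    (u.map D) (by
      rw [le_principal_iff]
      have : D ⁻¹' (closedBall (0 : ℂ) (q * |Real.log C| + (q + p) * Real.pi)) ∈ (u : Filter ℕ) := by
        filter_upwards [hDb] with j hj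
        simpa using hj
      exact this)
  have hDt : Tendsto D u (𝓝 D₀) := hD₀
  set η : ℕ → ℂ := fun j => w j ^ q * (x j ^ p)⁻¹ * Complex.exp (-D₀) - 1 with hη
  have hηe : ∀ᶠ j in (u : Filter ℕ), 1 + η j = Complex.exp (D j - D₀) := by
    filter_upwards [hx.eventually_ge_atTop 1, hw.eventually_ge_atTop 1] with j h8 h9
    have hx0 : x j ≠ 0 := by
      intro h
      rw [h, norm_zero] at h8
      linarith
    have hw0 : w j ≠ 0 := by
      intro h
      rw [h, norm_zero] at h9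
      linarith
    simp only [hη, hD]
    rw [show (q : ℂ) * Complex.log (w j) - p * Complex.log (x j) - D₀ =
      (q : ℂ) * Complex.log (w j) + (-(p * Complex.log (x j)) + -D₀) by ring, Complex.exp_add, Complex.exp_add,
      Complex.exp_neg (p * Complex.log (x j)), Complex.exp_nat_mul, Complex.exp_nat_mul, Complex.exp_log hx0,
      Complex.exp_log hw0]
    ring
  have hη0 : Tendsto η u (𝓝 0) := by
    have e1 : Tendsto (fun j => Complex.exp (D j - D₀) - 1) u (𝓝 0) := by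
      have e2 : Tendsto (fun j => D j - D₀) u (𝓝 0) := by
        simpa using hDt.sub_const D₀
      have e3 := (Complex.continuous_exp.tendsto 0).comp e2
      have e4 := e3.sub_const (1 : ℂ)
      simpa using e4
    refine e1.congr' ?_
    filter_upwards [hηe] with j hj
    rw [← hj]
    ring
  have hηA : Alg u x η := by
    have e1 := h4 _ _ (h4 _ _ (alg_pow hCL hx hwA q) (h5 _ (alg_pow hCL hx h2 p))) (h1 (Complex.exp (-D₀)))
    have e2 := h3 _ _ e1 (h1 (-1))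
    refine h6 _ _ e2 (Eventually.of_forall fun j => ?_)
    simp only [hη]
    ring
  have hlog : ∀ᶠ j in (u : Filter ℕ), Complex.log (1 + η j) = D j - D₀ := by
    have e1 : ∀ᶠ j in (u : Filter ℕ), ‖D j - D₀‖ < Real.pi := by
      have e2 : Tendsto (fun j => D j - D₀) u (𝓝 0) := by
        simpa using hDt.sub_const D₀
      have e3 := e2.norm
      rw [norm_zero] at e3
      exact e3.eventually_lt_const hpi
    filter_upwards [hηe, e1] with j h7 h8
    have h9 := Complex.abs_im_le_norm (D j - D₀)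
    have h10 := abs_lt.mp (h9.trans_lt h8)
    rw [h7, Complex.log_exp h10.1 h10.2.le]
  have hT : ∃ n : ℕ, Le u x (fun j => Complex.log (1 + η j) - Complex.logTaylor (n + 1) (η j)) (-M) := by
    rcases hPC u x η hx hηA with h | ⟨r, K, hK, h⟩
    · refine ⟨0, ?_⟩
      filter_upwards [h, hx.eventually_ge_atTop 1] with j h7 h8
      rw [h7, Complex.logTaylor_at_zero]
      simp only [add_zero, Complex.log_one, sub_zero, norm_zero]
      positivity
    · have hr : (r : ℝ) < 0 := by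
        by_contra hr
        push Not at hr
        have e1 := hη0.norm
        rw [norm_zero] at e1
        have e2 := e1.eventually_lt_const (show (0 : ℝ) < K⁻¹ by positivity)
        have e3 : ∀ᶠ j in (u : Filter ℕ), False := by
          filter_upwards [e2, h, hx.eventually_ge_atTop 1] with j h7 h8 h9
          have h10 : 1 ≤ ‖x j‖ ^ (r : ℝ) := Real.one_le_rpow h9 hr
          have h11 : K⁻¹ * 1 ≤ K⁻¹ * ‖x j‖ ^ (r : ℝ) := by gcongr
          linarith [h8.1]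
        exact u.neBot.ne (by simpa using e3)
      refine ⟨⌈(M + 1) / (-r)⌉₊, ?_⟩
      set n := ⌈(M + 1) / (-(r : ℝ))⌉₊ with hn
      have hnr : M + 1 ≤ (-r) * (n + 1) := by
        have : (M + 1) / (-(r : ℝ)) ≤ n := Nat.le_ceil _
        rw [div_le_iff₀ (by linarith)] at this
        nlinarith
      have hM : -M = -(M + 1) + 1 := by ring
      rw [hM]
      refine Le.of_const hx (K := 2 * K ^ (n + 1)) ?_
      have e1 := hη0.norm
      rw [norm_zero] at e1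
      filter_upwards [h, hx.eventually_ge_atTop 1, e1.eventually_lt_const (show (0 : ℝ) < 1 / 2 by norm_num)]
        with j h7 h8 h9
      have e4 : (1 - ‖η j‖)⁻¹ ≤ 2 := by
        rw [inv_le_comm₀ (by linarith) (by norm_num)]
        linarith
      calc _ ≤ ‖η j‖ ^ (n + 1) * (1 - ‖η j‖)⁻¹ / (n + 1) := Complex.norm_log_sub_logTaylor_le n (by linarith)
        _ ≤ ‖η j‖ ^ (n + 1) * (1 - ‖η j‖)⁻¹ := by
          apply div_le_self
          · have : 0 ≤ (1 - ‖η j‖)⁻¹ := by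
              apply inv_nonneg.mpr
              linarith
            positivity
          · have : (0 : ℝ) ≤ n := by positivity
            linarith
        _ ≤ (K * ‖x j‖ ^ (r : ℝ)) ^ (n + 1) * 2 := by
          have e5 : 0 ≤ (1 - ‖η j‖)⁻¹ := inv_nonneg.mpr (by linarith)
          have e6 : ‖η j‖ ^ (n + 1) ≤ (K * ‖x j‖ ^ (r : ℝ)) ^ (n + 1) := pow_le_pow_left₀ (norm_nonneg _) h7.2 _
          exact mul_le_mul e6 e4 e5 (by positivity)
        _ = 2 * K ^ (n + 1) * ‖x j‖ ^ (r * ((n : ℝ) + 1)) := by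
          rw [mul_pow, Real.rpow_mul (by linarith)]
          have : (‖x j‖ ^ (r : ℝ)) ^ ((n : ℝ) + 1) = (‖x j‖ ^ (r : ℝ)) ^ (n + 1) := by
            rw [← Real.rpow_natCast]
            push_cast
            rfl
          rw [this]
          ring
        _ ≤ _ := by
          apply mul_le_mul_of_nonneg_left _ (by positivity)
          apply Real.rpow_le_rpow_of_exponent_le h8
          linarith
  obtain ⟨n, hn⟩ := hT
  refine ⟨fun j => (q : ℂ)⁻¹ * (D₀ + Complex.logTaylor (n + 1) (η j)), ?_, ?_⟩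
  · refine h4 _ _ (h1 (q : ℂ)⁻¹) (h3 _ _ (h1 D₀) ?_)
    have e1 : Alg u x (fun j => ∑ i ∈ Finset.range (n + 1), (-1) ^ (i + 1) * η j ^ i / (i : ℂ)) := by
      refine alg_sum (a := fun i j => (-1) ^ (i + 1) * η j ^ i / (i : ℂ)) hCL hx (n + 1) fun i _ => ?_
      have := h4 _ _ (h4 _ _ (h1 ((-1) ^ (i + 1))) (alg_pow hCL hx hηA i)) (h1 ((i : ℂ)⁻¹))
      simpa [div_eq_mul_inv] using this
    simpa [Complex.logTaylor] using e1
  · filter_upwards [hn, hlog] with j h7 h8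
    have hqc : (q : ℂ) ≠ 0 := by exact_mod_cast hq0.ne'
    have e1 : Complex.log (w j) - ((v : ℂ) * Complex.log (x j) + (q : ℂ)⁻¹ * (D₀ + Complex.logTaylor (n + 1) (η j))) =
        (q : ℂ)⁻¹ * (Complex.log (1 + η j) - Complex.logTaylor (n + 1) (η j)) := by
      rw [h8]
      simp only [hD]
      rw [← hvqc]
      field_simp
      ring
    rw [e1, norm_mul]
    calc ‖(q : ℂ)⁻¹‖ * _ ≤ 1 * ‖Complex.log (1 + η j) - Complex.logTaylor (n + 1) (η j)‖ := by
          gcongr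
          rw [norm_inv, Complex.norm_natCast]
          apply inv_le_one_of_one_le₀
          exact_mod_cast hq0
      _ ≤ _ := by rw [one_mul]; exact h7

/-- along an algebraic sequence in the large sector `rg' = - rg ψ` -/
theorem rgL {z : ℕ → ℂ} (hz : Tendsto (fun j => ‖z j‖) u atTop)
    (harg : ∀ᶠ j in (u : Filter ℕ), |Complex.arg (z j)| ≤ 3 * Real.pi / 4) :
    ∀ᶠ j in (u : Filter ℕ), deriv rg (z j) = - (rg (z j) * logDeriv Complex.Gamma (z j)) ∧ rg (z j) ≠ 0 := by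
  filter_upwards [hz.eventually_ge_atTop 1, harg] with j h1 h2
  refine deriv_rg (gamma_ne ?_ h2)
  intro h
  rw [h, norm_zero] at h1
  linarith

theorem psiPb (hPSI : S_PSI) (hCL : S_CL) (hPC : S_PC) (hx : Tendsto (fun j => ‖x j‖) u atTop) {z : ℕ → ℂ}
    (hz : Tendsto (fun j => ‖z j‖) u atTop) (hzA : Alg u x z)
    {v : ℝ} (hv : 0 < v) (hzx : ∀ᶠ j in (u : Filter ℕ), ‖x j‖ ^ v ≤ ‖z j‖)
    (harg : ∀ᶠ j in (u : Filter ℕ), |Complex.arg (z j)| ≤ 3 * Real.pi / 4) :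
    Pb u x (fun j => logDeriv Complex.Gamma (z j)) := by
  obtain ⟨a, ha, hE⟩ := psiL hPSI hCL hx hz hzA hv hzx harg 0
  obtain ⟨c, hc⟩ := Alg.pb hPC hx hzA
  have h1 : Pb u x (fun j => Complex.log (z j)) := ⟨1, log_small hx hz hc 1 one_pos⟩
  have h2 : Pb u x (fun j => (logDeriv Complex.Gamma (z j) - (Complex.log (z j) + a j)) +
      (Complex.log (z j) + a j)) := Pb.add hx ⟨_, hE⟩ (Pb.add hx h1 (Alg.pb hPC hx ha))
  simpa using h2

/-- one point in the large sector, the other one in the left cone -/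
theorem caseSL (hPSI : S_PSI) (hCL : S_CL) (hPC : S_PC) (hDOM : S_DOM) (hx : Tendsto (fun j => ‖x j‖) u atTop)
    {z : ℕ → ℂ} (hz : Tendsto (fun j => ‖z j‖) u atTop) (hzA : Alg u x z)
    {v : ℝ} (hv : 0 < v) (hzx : ∀ᶠ j in (u : Filter ℕ), ‖x j‖ ^ v ≤ ‖z j‖)
    (harg : ∀ᶠ j in (u : Filter ℕ), |Complex.arg (z j)| ≤ 3 * Real.pi / 4)
    (hrg : Alg u x (fun j => rg (z j))) {α β γ δ : ℕ → ℂ} (hα : Alg u x α) (hβ : Alg u x β) (hγ : Alg u x γ)
    (hδ : Alg u x δ) {G : ℕ → ℂ} (hG0 : ∀ᶠ j in (u : Filter ℕ), G j ≠ 0) (hG : Sm u x (fun j => (G j)⁻¹))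
    (hrel : ∀ᶠ j in (u : Filter ℕ), α j * G j * deriv rg (z j) + β j * G j + γ j * deriv rg (z j) + δ j = 0) :
    ∀ᶠ j in (u : Filter ℕ), α j = 0 := by
  obtain ⟨h1, h2, h3, h4, h5, h6⟩ := hCL u x hx
  have hrgL := rgL hz harg
  have hψ := psiPb hPSI hCL hPC hx hz hzA hv hzx harg
  have hH : Pb u x (fun j => deriv rg (z j)) := by
    obtain ⟨c, hc⟩ := (Pb.mul hx (Alg.pb hPC hx hrg) hψ).neg
    refine ⟨c, hc.congr ?_⟩
    filter_upwards [hrgL] with j hj
    exact hj.1.symm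
  have hf : Sm u x (fun j => α j * deriv rg (z j) + β j) := by
    have e1 : Sm u x (fun j => - ((γ j * deriv rg (z j) + δ j) * (G j)⁻¹)) :=
      (Sm.mul hx (Pb.add hx (Pb.mul hx (Alg.pb hPC hx hγ) hH) (Alg.pb hPC hx hδ)) hG).neg
    refine e1.congr ?_
    filter_upwards [hG0, hrel] with j h7 h8
    field_simp
    linear_combination (-1 : ℂ) * h8
  obtain ⟨cz, hcz⟩ := Alg.pb hPC hx hzA
  have hb : Alg u x (fun j => -(α j * rg (z j))) := alg_neg hCL hx (h4 _ _ hα hrg)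
  have hm := main hPC hDOM hx (log_tendsto hz) (log_small hx hz hcz) 1 _ hb _ hf ?_
  · filter_upwards [hm, hrgL] with j h7 h8
    have h9 : α j * rg (z j) = 0 := by simpa using h7
    rcases mul_eq_zero.mp h9 with h | h
    · exact h
    · exact absurd h h8.2
  · intro M
    obtain ⟨c, hc⟩ := Alg.pb hPC hx hb
    obtain ⟨a, ha, hE⟩ := psiL hPSI hCL hx hz hzA hv hzx harg (M + c)
    refine ⟨fun i j => if i = 0 then β j + -(α j * rg (z j)) * a j else -(α j * rg (z j)), ?_, ?_, ?_⟩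
    · intro i hi
      interval_cases i
      · simpa using h3 _ _ hβ (h4 _ _ hb ha)
      · simpa using hb
    · simp
    · have e1 := (hc.mul hx hE).mono hx (show c + -(M + c) ≤ -M by linarith)
      refine e1.congr ?_
      filter_upwards [hrgL] with j hj
      rw [hj.1]
      simp only [Finset.sum_range_succ, Finset.sum_range_zero]
      simp
      ring

/-- both points in the left cone -/
theorem caseSS (hPC : S_PC) (hx : Tendsto (fun j => ‖x j‖) u atTop) {α β γ δ : ℕ → ℂ} (hα : Alg u x α)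
    (hβ : Alg u x β) (hγ : Alg u x γ) (hδ : Alg u x δ) {G H : ℕ → ℂ} (hG0 : ∀ᶠ j in (u : Filter ℕ), G j ≠ 0)
    (hG : Sm u x (fun j => (G j)⁻¹)) (hH0 : ∀ᶠ j in (u : Filter ℕ), H j ≠ 0) (hH : Sm u x (fun j => (H j)⁻¹))
    (hrel : ∀ᶠ j in (u : Filter ℕ), α j * G j * H j + β j * G j + γ j * H j + δ j = 0) :
    ∀ᶠ j in (u : Filter ℕ), α j = 0 := by
  have hs : Sm u x α := by
    have e1 : Sm u x (fun j => - (β j * (H j)⁻¹ + γ j * (G j)⁻¹ + δ j * (G j)⁻¹ * (H j)⁻¹)) := by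
      refine Sm.neg (Sm.add hx (Sm.add hx ?_ ?_) ?_)
      · exact Sm.mul hx (Alg.pb hPC hx hβ) hH
      · exact Sm.mul hx (Alg.pb hPC hx hγ) hG
      · exact Sm.mul hx (Pb.mul hx (Alg.pb hPC hx hδ) hG.pb) hH
    refine e1.congr ?_
    filter_upwards [hG0, hH0, hrel] with j h7 h8 h9
    field_simp
    linear_combination (-1 : ℂ) * h9
  rcases hPC u x α hx hα with h | ⟨v, C, hC, h⟩
  · exact h
  exfalso
  have hfin : ∀ᶠ j in (u : Filter ℕ), False := by
    filter_upwards [h, hs (-v + 1), hx.eventually_ge_atTop 1, hx.eventually_gt_atTop C] with j h1 h2 h3 h4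
    have hp : 0 < ‖x j‖ ^ (v : ℝ) := by positivity
    have h5 : ‖x j‖ ^ (-(-(v : ℝ) + 1)) = ‖x j‖ ^ (v : ℝ) * ‖x j‖⁻¹ := by
      rw [show -(-(v : ℝ) + 1) = v + (-1) by ring, Real.rpow_add (by linarith), Real.rpow_neg_one]
    rw [h5] at h2
    have h6 : C⁻¹ * ‖x j‖ ^ (v : ℝ) ≤ ‖x j‖⁻¹ * ‖x j‖ ^ (v : ℝ) := by linarith [h1.1]
    have h7 : C⁻¹ ≤ ‖x j‖⁻¹ := le_of_mul_le_mul_right h6 hp
    have h8 : ‖x j‖ ≤ C := (inv_le_inv₀ hC (by linarith)).mp h7
    linarith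
  exact u.neBot.ne (by simpa using hfin)

/-- both points in the large sector -/
theorem caseLL (hPSI : S_PSI) (hCL : S_CL) (hPC : S_PC) (hDOM : S_DOM) (hx : Tendsto (fun j => ‖x j‖) u atTop)
    {w : ℕ → ℂ} (hw : Tendsto (fun j => ‖w j‖) u atTop) (hwA : Alg u x w)
    {v : ℚ} (hv : 0 < v) {C : ℝ} (hC : 0 < C)
    (hb : ∀ᶠ j in (u : Filter ℕ), C⁻¹ * ‖x j‖ ^ (v : ℝ) ≤ ‖w j‖ ∧ ‖w j‖ ≤ C * ‖x j‖ ^ (v : ℝ))
    {v' : ℝ} (hv' : 0 < v') (hwx : ∀ᶠ j in (u : Filter ℕ), ‖x j‖ ^ v' ≤ ‖w j‖)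
    (hargx : ∀ᶠ j in (u : Filter ℕ), |Complex.arg (x j)| ≤ 3 * Real.pi / 4)
    (hargw : ∀ᶠ j in (u : Filter ℕ), |Complex.arg (w j)| ≤ 3 * Real.pi / 4)
    (hrgx : Alg u x (fun j => rg (x j))) (hrgw : Alg u x (fun j => rg (w j)))
    {α β γ δ : ℕ → ℂ} (hα : Alg u x α) (hβ : Alg u x β) (hγ : Alg u x γ) (hδ : Alg u x δ)
    (hrel : ∀ᶠ j in (u : Filter ℕ), α j * deriv rg (x j) * deriv rg (w j) + β j * deriv rg (x j) +
      γ j * deriv rg (w j) + δ j = 0) :
    ∀ᶠ j in (u : Filter ℕ), α j = 0 := by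
  obtain ⟨h1, h2, h3, h4, h5, h6⟩ := hCL u x hx
  have hxx : ∀ᶠ j in (u : Filter ℕ), ‖x j‖ ^ (1 : ℝ) ≤ ‖x j‖ := Eventually.of_forall fun j => by
    rw [Real.rpow_one]
  have hL1 := rgL hx hargx
  have hL2 := rgL hw hargw
  have hψx := psiPb hPSI hCL hPC hx hx h2 one_pos hxx hargx
  have hψw := psiPb hPSI hCL hPC hx hw hwA hv' hwx hargw
  set A : ℕ → ℂ := fun j => α j * rg (x j) * rg (w j) with hA
  have hAA : Alg u x A := h4 _ _ (h4 _ _ hα hrgx) hrgw
  have hβx : Alg u x (fun j => β j * rg (x j)) := h4 _ _ hβ hrgx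
  have hγw : Alg u x (fun j => γ j * rg (w j)) := h4 _ _ hγ hrgw
  have hbA : Alg u x (fun j => A j * (v : ℂ)) := h4 _ _ hAA (h1 v)
  have hf : Sm u x (fun _ => (0 : ℂ)) := by
    intro M
    filter_upwards [hx.eventually_ge_atTop 1] with j hj
    rw [norm_zero]
    positivity
  have hcx : Le u x x 1 := Eventually.of_forall fun j => by rw [Real.rpow_one]
  have hm := main hPC hDOM hx (log_tendsto hx) (log_small hx hx hcx) 2 _ hbA _ hf ?_
  · filter_upwards [hm, hL1, hL2] with j h7 h8 h9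
    have hvc : (v : ℂ) ≠ 0 := by exact_mod_cast hv.ne'
    simp only [hA] at h7
    rcases mul_eq_zero.mp h7 with h | h
    · rcases mul_eq_zero.mp h with h | h
      · rcases mul_eq_zero.mp h with h | h
        · exact h
        · exact absurd h h8.2
      · exact absurd h h9.2
    · exact absurd h hvc
  · intro M
    obtain ⟨c1, hc1⟩ : Pb u x (fun j => A j * logDeriv Complex.Gamma (x j) + -(γ j * rg (w j))) :=
      Pb.add hx (Pb.mul hx (Alg.pb hPC hx hAA) hψx) (Alg.pb hPC hx hγw).neg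
    obtain ⟨c2, hc2⟩ : Pb u x (fun j => A j * logDeriv Complex.Gamma (w j) + -(β j * rg (x j))) :=
      Pb.add hx (Pb.mul hx (Alg.pb hPC hx hAA) hψw) (Alg.pb hPC hx hβx).neg
    obtain ⟨c3, hc3⟩ := Alg.pb hPC hx hAA
    set c := max c1 (max c2 c3) with hc
    have hc1' := hc1.mono hx (le_max_left c1 (max c2 c3))
    have hc2' := hc2.mono hx ((le_max_left c2 c3).trans (le_max_right c1 (max c2 c3)))
    have hc3' := hc3.mono hx ((le_max_right c2 c3).trans (le_max_right c1 (max c2 c3)))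
    rw [← hc] at hc1' hc2' hc3'
    set M' := |M| + |c| + 4 with hM'
    obtain ⟨a, ha, hEx⟩ := psiL hPSI hCL hx hx h2 one_pos hxx hargx M'
    obtain ⟨b₁, hb₁, hE1⟩ := psiL hPSI hCL hx hw hwA hv' hwx hargw (M' + 1)
    obtain ⟨b₂, hb₂, hE2⟩ := logrel hCL hPC hx hw hwA hv hC hb (M' + 1)
    set e : ℕ → ℂ := fun j => logDeriv Complex.Gamma (x j) - (Complex.log (x j) + a j) with he
    set b : ℕ → ℂ := fun j => b₁ j + b₂ j with hbdef
    set e' : ℕ → ℂ := fun j => logDeriv Complex.Gamma (w j) - ((v : ℂ) * Complex.log (x j) + b j) with he'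
    have hbAlg : Alg u x b := h3 _ _ hb₁ hb₂
    have hE : Le u x e' (-M') := by
      have h7 := (hE1.add hx hE2).mono hx (show -(M' + 1) + 1 ≤ -M' by linarith)
      refine h7.congr (Eventually.of_forall fun j => ?_)
      simp only [he', hbdef]
      ring
    -- the coefficients
    have hB0 : Alg u x (fun j => A j * (a j * b j) + -(β j * rg (x j) * a j) + -(γ j * rg (w j) * b j) + δ j) :=
      h3 _ _ (h3 _ _ (h3 _ _ (h4 _ _ hAA (h4 _ _ ha hbAlg)) (alg_neg hCL hx (h4 _ _ hβx ha)))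
        (alg_neg hCL hx (h4 _ _ hγw hbAlg))) hδ
    have hB1 : Alg u x (fun j => A j * (b j + (v : ℂ) * a j) + -(β j * rg (x j)) + -(γ j * rg (w j) * (v : ℂ))) :=
      h3 _ _ (h3 _ _ (h4 _ _ hAA (h3 _ _ hbAlg (h4 _ _ (h1 v) ha))) (alg_neg hCL hx hβx))
        (alg_neg hCL hx (h4 _ _ hγw (h1 v)))
    refine ⟨fun i j => if i = 0 then A j * (a j * b j) + -(β j * rg (x j) * a j) + -(γ j * rg (w j) * b j) + δ j
      else if i = 1 then A j * (b j + (v : ℂ) * a j) + -(β j * rg (x j)) + -(γ j * rg (w j) * (v : ℂ))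
      else A j * (v : ℂ), ?_, ?_, ?_⟩
    · intro i hi
      interval_cases i
      · simpa using hB0
      · simpa using hB1
      · simpa using hbA
    · simp
    · have t1 := hc1'.mul hx hE
      have t2 := hc2'.mul hx hEx
      have t3 := ((hc3'.mul hx hEx).mul hx hE).neg
      have hM1 : M' = |M| + |c| + 4 := hM'
      have hcc := le_abs_self c
      have hMM := le_abs_self M
      have hc0 := abs_nonneg c
      have hM0 := abs_nonneg M
      have t4 := (t1.mono hx (show c + -M' ≤ -M - 2 by linarith)).add hx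
        (t2.mono hx (show c + -M' ≤ -M - 2 by linarith))
      have t5 := t4.add hx (t3.mono hx (show c + -M' + -M' ≤ -M - 2 + 1 by linarith))
      refine (t5.mono hx (show -M - 2 + 1 + 1 ≤ -M by linarith)).congr ?_
      filter_upwards [hrel, hL1, hL2] with j h7 h8 h9
      rw [h8.1, h9.1] at h7
      simp only [Finset.sum_range_succ, Finset.sum_range_zero]
      simp only [he, he', hA]
      norm_num
      linear_combination h7

theorem t_MIS : S_PSI → S_LEFT → S_CL → S_PC → S_DOM → S_MIS := by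
  intro hPSI hLEFT hCL hPC hDOM x w hx hw E₁ E₂ E₃ hE₁ hE₂ hE₃ h₁ h₂ h₃ α β γ δ hrel
  by_contra hne
  push Not at hne
  set u : Ultrafilter ℕ := hyperfilter ℕ with hu
  have hule : (u : Filter ℕ) ≤ atTop := Nat.hyperfilter_le_atTop
  have hx' := hx.mono_left hule
  have hw' := hw.mono_left hule
  obtain ⟨c1, c2, c3, c4, c5, c6⟩ := hCL u x hx'
  have hwA : Alg u x w := ⟨E₁, hE₁, Eventually.of_forall h₁⟩
  have hrgx : Alg u x (fun j => rg (x j)) := ⟨E₂, hE₂, Eventually.of_forall h₂⟩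
  have hrgw : Alg u x (fun j => rg (w j)) := ⟨E₃, hE₃, Eventually.of_forall h₃⟩
  have hP : ∀ P : MvPolynomial (Fin 4) ℂ,
      Alg u x (fun j => MvPolynomial.eval ![x j, w j, rg (x j), rg (w j)] P) := by
    intro P
    have := alg_eval hCL hx' ![x, w, fun j => rg (x j), fun j => rg (w j)] (by
      intro i
      fin_cases i
      · exact c2
      · exact hwA
      · exact hrgx
      · exact hrgw) P
    have e1 : ∀ j, (fun i => (![x, w, fun j => rg (x j), fun j => rg (w j)] : Fin 4 → ℕ → ℂ) i j) =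
        ![x j, w j, rg (x j), rg (w j)] := by
      intro j
      ext i
      fin_cases i <;> rfl
    simpa only [e1] using this
  have hwpc : ∃ (v : ℚ) (C : ℝ), 0 < v ∧ 0 < C ∧ ∀ᶠ j in (u : Filter ℕ),
      C⁻¹ * ‖x j‖ ^ (v : ℝ) ≤ ‖w j‖ ∧ ‖w j‖ ≤ C * ‖x j‖ ^ (v : ℝ) := by
    rcases hPC u x w hx' hwA with h | ⟨v, C, hC, h⟩
    · exfalso
      have : ∀ᶠ j in (u : Filter ℕ), False := by
        filter_upwards [h, hw'.eventually_ge_atTop 1] with j h7 h8
        rw [h7, norm_zero] at h8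
        linarith
      exact u.neBot.ne (by simpa using this)
    · refine ⟨v, C, ?_, hC, h⟩
      by_contra hv
      push Not at hv
      have : ∀ᶠ j in (u : Filter ℕ), False := by
        filter_upwards [h, hw'.eventually_gt_atTop C, hx'.eventually_ge_atTop 1] with j h7 h8 h9
        have h10 : ‖x j‖ ^ (v : ℝ) ≤ 1 := Real.rpow_le_one_of_one_le_of_nonpos h9 (by exact_mod_cast hv)
        have h11 : C * ‖x j‖ ^ (v : ℝ) ≤ C * 1 := by gcongr
        linarith [h7.2]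
      exact u.neBot.ne (by simpa using this)
  obtain ⟨v, C, hv, hC, hb⟩ := hwpc
  have hvr : (0 : ℝ) < v := by exact_mod_cast hv
  have hwx : ∀ᶠ j in (u : Filter ℕ), ‖x j‖ ^ ((v : ℝ) / 2) ≤ ‖w j‖ := by
    have h7 : Tendsto (fun j => ‖x j‖ ^ ((v : ℝ) / 2)) u atTop := (tendsto_rpow_atTop (by positivity)).comp hx'
    filter_upwards [hb, h7.eventually_ge_atTop C, hx'.eventually_ge_atTop 1] with j h8 h9 h10
    calc ‖x j‖ ^ ((v : ℝ) / 2) = C⁻¹ * (C * ‖x j‖ ^ ((v : ℝ) / 2)) := by field_simp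
      _ ≤ C⁻¹ * (‖x j‖ ^ ((v : ℝ) / 2) * ‖x j‖ ^ ((v : ℝ) / 2)) := by gcongr
      _ = C⁻¹ * ‖x j‖ ^ (v : ℝ) := by
        rw [← Real.rpow_add (by linarith), add_halves]
      _ ≤ _ := h8.1
  have hxx : ∀ᶠ j in (u : Filter ℕ), ‖x j‖ ^ (1 : ℝ) ≤ ‖x j‖ := Eventually.of_forall fun j => by
    rw [Real.rpow_one]
  have hrel' := hrel
  have hconc : ∀ᶠ j in (u : Filter ℕ), MvPolynomial.eval ![x j, w j, rg (x j), rg (w j)] α = 0 := by
    rcases u.em (fun j => |Complex.arg (x j)| ≤ 3 * Real.pi / 4) with hX | hX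
    · rcases u.em (fun j => |Complex.arg (w j)| ≤ 3 * Real.pi / 4) with hW | hW
      · exact caseLL hPSI hCL hPC hDOM hx' hw' hwA hv hC hb (by positivity) hwx hX hW hrgx hrgw (hP α) (hP β)
          (hP γ) (hP δ) (Eventually.of_forall hrel)
      · have hW' : ∀ᶠ j in (u : Filter ℕ), 3 * Real.pi / 4 < |Complex.arg (w j)| := by
          filter_upwards [hW] with j hj
          exact not_le.mp hj
        obtain ⟨g1, g2⟩ := leftS hLEFT hx' hw' (show (0 : ℝ) < v / 2 by positivity) hwx hW' (Alg.pb hPC hx' hrgw)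
        refine caseSL hPSI hCL hPC hDOM hx' hx' c2 one_pos hxx hX hrgx (hP α) (hP γ) (hP β) (hP δ) g1 g2 ?_
        refine Eventually.of_forall fun j => ?_
        rw [← hrel j]
        ring
    · have hX' : ∀ᶠ j in (u : Filter ℕ), 3 * Real.pi / 4 < |Complex.arg (x j)| := by
        filter_upwards [hX] with j hj
        exact not_le.mp hj
      obtain ⟨f1, f2⟩ := leftS hLEFT hx' hx' one_pos hxx hX' (Alg.pb hPC hx' hrgx)
      rcases u.em (fun j => |Complex.arg (w j)| ≤ 3 * Real.pi / 4) with hW | hW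
      · exact caseSL hPSI hCL hPC hDOM hx' hw' hwA (by positivity) hwx hW hrgw (hP α) (hP β) (hP γ) (hP δ) f1 f2
          (Eventually.of_forall hrel)
      · have hW' : ∀ᶠ j in (u : Filter ℕ), 3 * Real.pi / 4 < |Complex.arg (w j)| := by
          filter_upwards [hW] with j hj
          exact not_le.mp hj
        obtain ⟨g1, g2⟩ := leftS hLEFT hx' hw' (show (0 : ℝ) < v / 2 by positivity) hwx hW' (Alg.pb hPC hx' hrgw)
        exact caseSS hPC hx' (hP α) (hP β) (hP γ) (hP δ) f1 f2 g1 g2 (Eventually.of_forall hrel)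
  have : ∀ᶠ j in (u : Filter ℕ), False := by
    filter_upwards [hconc] with j hj
    exact hne j hj
  exact u.neBot.ne (by simpa using this)

end Pool.Agent.J4H63.K1
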